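import Mathlib

set_option autoImplicit false

/-!
# Compatible straightening laws on the ideals of a disjoint union of chains

Let `P` be a finite disjoint union of chains (a finite poset in which comparability is transitive).
Every compatible monomial algebra with straightening laws on the distributive lattice `J(P)` of the
poset ideals of `P` has the straightening relations `φ(I) φ(I') = φ(I ∩ I') φ(I ∪ I')`, and these are
also the straightening relations of the toric rings of the order polytope of `P`, of the chain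
polytope of `P` and of the chain polytope of the dual poset.
-/

namespace Pool.Agent.Results.MP_9c3df6_al.UniqueCompatible

variable (K : Type*) [Field K] {P : Type*} [PartialOrder P] {σ τ : Type*}

/-- `φ(I) = w_I t`, an element of `S = K[x_s : s ∈ σ][t]`, where `w_I` is the monomial with
exponent vector `w I`. -/
noncomputable def phi (w : LowerSet P → (σ →₀ ℕ)) (I : LowerSet P) :
    Polynomial (MvPolynomial σ K) :=
  Polynomial.monomial 1 (MvPolynomial.monomial (w I) 1)

/-- A finite multiset `{α_1, ..., α_k}` of poset ideals with `α_1 ≤ ... ≤ α_k`. -/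
def IsMultichain (s : Multiset (LowerSet P)) : Prop :=
  ∀ a ∈ s, ∀ b ∈ s, a ≤ b ∨ b ≤ a

/-- The standard monomials `φ(α_1) ... φ(α_k)`, `α_1 ≤ ... ≤ α_k`. -/
noncomputable def stdMon (w : LowerSet P → (σ →₀ ℕ))
    (s : {s : Multiset (LowerSet P) // IsMultichain s}) : Polynomial (MvPolynomial σ K) :=
  (s.1.map (phi K w)).prod

/-- The monomials `w_I` define a compatible algebra with straightening laws `K[Ω]` on `J(P)`:
`φ` is injective, the standard monomials form a `K`-basis of the subalgebra `K[Ω]` generated by the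
`w_I t`, and for incomparable `I`, `I'` the straightening relation reads
`φ(I) φ(I') = φ(J) φ(J')` with `J ⊆ I ∩ I'` and `J' ⊇ I ∪ I'`. -/
structure IsCompatibleASL (w : LowerSet P → (σ →₀ ℕ)) : Prop where
  injective : Function.Injective (phi K w)
  linearIndependent : LinearIndependent K (stdMon K w)
  span_eq : Submodule.span K (Set.range (stdMon K w)) =
    Subalgebra.toSubmodule (Algebra.adjoin K (Set.range (phi K w)))
  compatible : ∀ I I' : LowerSet P, ¬ I ≤ I' → ¬ I' ≤ I → ∃ J J' : LowerSet P,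
    J ≤ I ⊓ I' ∧ I ⊔ I' ≤ J' ∧ phi K w I * phi K w I' = phi K w J * phi K w J'

/-- The straightening relations of the two systems coincide: for incomparable `I`, `I'` and
`J ≤ J'` the relation `φ(I) φ(I') = φ(J) φ(J')` holds for one if and only if it holds for the
other. -/
def SameRelations (w : LowerSet P → (σ →₀ ℕ)) (v : LowerSet P → (τ →₀ ℕ)) : Prop :=
  ∀ I I' J J' : LowerSet P, ¬ I ≤ I' → ¬ I' ≤ I → J ≤ J' →
    (phi K w I * phi K w I' = phi K w J * phi K w J' ↔
      phi K v I * phi K v I' = phi K v J * phi K v J')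

open Classical in
/-- `x(W) = ∏_{p ∈ W} x_p` (its exponent vector). -/
noncomputable def xset [Fintype P] (W : Set P) : P →₀ ℕ :=
  ∑ p ∈ Finset.univ.filter (· ∈ W), Finsupp.single p 1

/-- The order polytope: `w_I = x(I)`. -/
noncomputable def orderW [Fintype P] (I : LowerSet P) : P →₀ ℕ := xset {p | p ∈ I}

/-- The chain polytope: `w_I = x(max I)`. -/
noncomputable def chainW [Fintype P] (I : LowerSet P) : P →₀ ℕ :=
  xset {p | Maximal (fun q => q ∈ I) p}

/-- The chain polytope of the dual poset: `w_I = x(min (P \ I))`. -/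
noncomputable def dualChainW [Fintype P] (I : LowerSet P) : P →₀ ℕ :=
  xset {p | Minimal (fun q => q ∉ I) p}

section basics

variable {K}

theorem phi_mul (w : LowerSet P → (σ →₀ ℕ)) (I I' : LowerSet P) :
    phi K w I * phi K w I' =
      Polynomial.monomial 2 (MvPolynomial.monomial (w I + w I') 1) := by
  rw [phi, phi, Polynomial.monomial_mul_monomial, MvPolynomial.monomial_mul, one_mul]

theorem rel_iff (w : LowerSet P → (σ →₀ ℕ)) (I I' J J' : LowerSet P) :
    phi K w I * phi K w I' = phi K w J * phi K w J' ↔ w I + w I' = w J + w J' := by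
  rw [phi_mul, phi_mul]
  constructor
  · intro h
    exact MvPolynomial.monomial_left_injective (one_ne_zero) (Polynomial.monomial_injective 2 h)
  · intro h
    rw [h]

theorem prod_phi (w : LowerSet P → (σ →₀ ℕ)) (s : Multiset (LowerSet P)) :
    (s.map (phi K w)).prod =
      Polynomial.monomial s.card (MvPolynomial.monomial (s.map w).sum 1) := by
  induction s using Multiset.induction_on with
  | empty => simp
  | cons a s ih =>
    rw [Multiset.map_cons, Multiset.prod_cons, ih, phi, Polynomial.monomial_mul_monomial,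
      MvPolynomial.monomial_mul, one_mul, Multiset.card_cons, Multiset.map_cons,
      Multiset.sum_cons, add_comm 1]

theorem uniq {w : LowerSet P → (σ →₀ ℕ)} (hw : IsCompatibleASL K w)
    {s t : Multiset (LowerSet P)} (hs : IsMultichain s) (ht : IsMultichain t)
    (hc : s.card = t.card) (h : (s.map w).sum = (t.map w).sum) : s = t := by
  have := hw.linearIndependent.injective (a₁ := ⟨s, hs⟩) (a₂ := ⟨t, ht⟩) (by
    rw [stdMon, stdMon, prod_phi, prod_phi, hc, h])
  exact congrArg Subtype.val this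

theorem inj {w : LowerSet P → (σ →₀ ℕ)} (hw : IsCompatibleASL K w) {I J : LowerSet P}
    (h : w I = w J) : I = J := by
  apply hw.injective
  rw [phi, phi, h]

theorem compat {w : LowerSet P → (σ →₀ ℕ)} (hw : IsCompatibleASL K w) {I I' : LowerSet P}
    (h1 : ¬ I ≤ I') (h2 : ¬ I' ≤ I) : ∃ J J' : LowerSet P,
      J ≤ I ⊓ I' ∧ I ⊔ I' ≤ J' ∧ w I + w I' = w J + w J' := by
  obtain ⟨J, J', h3, h4, h5⟩ := hw.compatible I I' h1 h2
  exact ⟨J, J', h3, h4, (rel_iff w I I' J J').1 h5⟩

end basics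

/-- An injective inflationary self-map of a finite poset is the identity. -/
theorem eq_of_inflationary {X : Type*} [PartialOrder X] [Finite X] (f : X → X)
    (hf : Function.Injective f) (h : ∀ x, x ≤ f x) : ∀ x, f x = x := by
  intro x
  induction x using (wellFounded_gt (α := X)).induction with
  | _ x ih =>
    by_contra hx
    have h1 : x < f x := lt_of_le_of_ne (h x) (Ne.symm hx)
    exact hx (hf (ih (f x) h1))

section clopen

variable {K} {w : LowerSet P → (σ →₀ ℕ)}

theorem triple_chain {a b c : LowerSet P} (h1 : a ≤ b) (h2 : b ≤ c) :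
    IsMultichain ({a, b, c} : Multiset (LowerSet P)) := by
  intro x hx y hy
  simp only [Multiset.insert_eq_cons, Multiset.mem_cons, Multiset.mem_singleton] at hx hy
  rcases hx with rfl | rfl | rfl <;> rcases hy with rfl | rfl | rfl
  · left; exact le_rfl
  · left; exact h1
  · left; exact h1.trans h2
  · right; exact h1
  · left; exact le_rfl
  · left; exact h2
  · right; exact h1.trans h2
  · right; exact h2
  · left; exact le_rfl

theorem pair_chain {a b : LowerSet P} (h1 : a ≤ b) :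
    IsMultichain ({a, b} : Multiset (LowerSet P)) := by
  intro x hx y hy
  simp only [Multiset.insert_eq_cons, Multiset.mem_cons, Multiset.mem_singleton] at hx hy
  rcases hx with rfl | rfl <;> rcases hy with rfl | rfl
  · left; exact le_rfl
  · left; exact h1
  · right; exact h1
  · left; exact le_rfl

theorem claimA [Finite P] (hw : IsCompatibleASL K w) {T T' : LowerSet P} (h0 : T ⊓ T' = ⊥)
    (h1 : T ⊔ T' = ⊤) (Y : LowerSet P) (hY : Y ≤ T') :
    w T + w Y = w ⊥ + w (T ⊔ Y) := by
  classical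
  by_cases hT : T = ⊥
  · rw [hT, bot_sup_eq]
  have key : ∀ Z : {Z : LowerSet P // Z ≤ T'}, ∃ Q : {Z : LowerSet P // Z ≤ T'},
      Z ≤ Q ∧ w T + w Z.1 = w ⊥ + w (T ⊔ Q.1) := by
    rintro ⟨Z, hZ⟩
    by_cases hZ0 : Z = ⊥
    · refine ⟨⟨Z, hZ⟩, le_rfl, ?_⟩
      show w T + w Z = w ⊥ + w (T ⊔ Z)
      rw [hZ0, sup_bot_eq, add_comm]
    · have h2 : ¬ T ≤ Z := by
        intro h
        apply hT
        rw [eq_bot_iff, ← h0]
        exact le_inf le_rfl (h.trans hZ)
      have h3 : ¬ Z ≤ T := by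
        intro h
        apply hZ0
        rw [eq_bot_iff, ← h0]
        exact le_inf h hZ
      obtain ⟨J, Q, h4, h5, h6⟩ := compat hw h2 h3
      have h7 : J = ⊥ := by
        rw [eq_bot_iff, ← h0]
        exact h4.trans (inf_le_inf_left _ hZ)
      refine ⟨⟨Q ⊓ T', inf_le_right⟩, ?_, ?_⟩
      · show Z ≤ Q ⊓ T'
        exact le_inf (le_sup_right.trans h5) hZ
      · show w T + w Z = w ⊥ + w (T ⊔ (Q ⊓ T'))
        have h8 : T ⊔ (Q ⊓ T') = Q := by
          rw [sup_inf_left, h1, inf_top_eq, sup_eq_right]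
          exact le_sup_left.trans h5
        rw [h8, h6, h7]
  choose f hf1 hf2 using key
  have hinj : Function.Injective f := by
    intro Z Z' h
    have h2 := hf2 Z
    rw [h, ← hf2 Z'] at h2
    exact Subtype.ext (inj hw (add_left_cancel h2))
  have hid := eq_of_inflationary f hinj hf1 ⟨Y, hY⟩
  have := hf2 ⟨Y, hY⟩
  rw [hid] at this
  exact this

theorem claimB1 [Finite P] (hw : IsCompatibleASL K w) {T T' : LowerSet P} (h0 : T ⊓ T' = ⊥)
    (h1 : T ⊔ T' = ⊤) {X Y Q : LowerSet P} (hX : X ≤ T) (hY : Y ≤ T') (hX0 : X ≠ ⊥)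
    (hQ : X ⊔ Y ≤ Q) (h : w X + w Y = w ⊥ + w Q) : Q ⊓ T ≤ X := by
  classical
  have hA : w T' + w X = w ⊥ + w (T' ⊔ X) :=
    claimA hw (by rw [inf_comm, h0]) (by rw [sup_comm, h1]) X hX
  have hXQ : X ≤ Q := le_sup_left.trans hQ
  have hnX : ¬ X ≤ T' := by
    intro h2
    apply hX0
    rw [eq_bot_iff, ← h0]
    exact le_inf hX h2
  have hnQ : ¬ Q ≤ T' := fun h2 => hnX (hXQ.trans h2)
  have hgoal : Q ≤ T' ⊔ X → Q ⊓ T ≤ X := by
    intro h2
    calc Q ⊓ T ≤ (T' ⊔ X) ⊓ T := inf_le_inf_right _ h2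
      _ = (T' ⊓ T) ⊔ (X ⊓ T) := inf_sup_right _ _ _
      _ = X ⊓ T := by rw [inf_comm T' T, h0, bot_sup_eq]
      _ ≤ X := inf_le_left
  apply hgoal
  have hc1 : IsMultichain ({⊥, Y, T' ⊔ X} : Multiset (LowerSet P)) :=
    triple_chain bot_le (hY.trans le_sup_left)
  by_cases hcmp : T' ≤ Q
  · have hc2 : IsMultichain ({⊥, T', Q} : Multiset (LowerSet P)) := triple_chain bot_le hcmp
    have heq := uniq hw hc1 hc2 rfl (by
      simp only [Multiset.insert_eq_cons, Multiset.map_cons, Multiset.map_singleton,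
        Multiset.sum_cons, Multiset.sum_singleton]
      have e1 : w ⊥ + (w Y + w (T' ⊔ X)) = w T' + w X + w Y := by rw [hA]; abel
      have e2 : w ⊥ + (w T' + w Q) = w T' + (w X + w Y) := by rw [h]; abel
      rw [e1, e2]; abel)
    have hQm : Q ∈ ({⊥, Y, T' ⊔ X} : Multiset (LowerSet P)) := by
      rw [heq]; simp
    simp only [Multiset.insert_eq_cons, Multiset.mem_cons, Multiset.mem_singleton] at hQm
    rcases hQm with h2 | h2 | h2
    · exact absurd (by rw [h2]; exact bot_le) hnQ
    · exact absurd (by rw [h2]; exact hY) hnQ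
    · rw [h2]
  · obtain ⟨J, Q', h4, h5, h6⟩ := compat hw hnQ hcmp
    have hc2 : IsMultichain ({⊥, J, Q'} : Multiset (LowerSet P)) :=
      triple_chain bot_le ((h4.trans inf_le_left).trans (le_sup_left.trans h5))
    have heq := uniq hw hc1 hc2 rfl (by
      simp only [Multiset.insert_eq_cons, Multiset.map_cons, Multiset.map_singleton,
        Multiset.sum_cons, Multiset.sum_singleton]
      have e1 : w ⊥ + (w Y + w (T' ⊔ X)) = w T' + w X + w Y := by rw [hA]; abel
      have e2 : w ⊥ + (w J + w Q') = w T' + (w X + w Y) := by rw [← h6, h]; abel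
      rw [e1, e2]; abel)
    have hQm : Q' ∈ ({⊥, Y, T' ⊔ X} : Multiset (LowerSet P)) := by
      rw [heq]; simp
    have hQQ : Q ≤ Q' := le_sup_left.trans h5
    simp only [Multiset.insert_eq_cons, Multiset.mem_cons, Multiset.mem_singleton] at hQm
    rcases hQm with h2 | h2 | h2
    · exact absurd (hQQ.trans (by rw [h2]; exact bot_le)) hnQ
    · exact absurd (hQQ.trans (by rw [h2]; exact hY)) hnQ
    · rw [← h2]; exact hQQ

theorem claimB [Finite P] (hw : IsCompatibleASL K w) {T T' : LowerSet P} (h0 : T ⊓ T' = ⊥)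
    (h1 : T ⊔ T' = ⊤) {X Y : LowerSet P} (hX : X ≤ T) (hY : Y ≤ T') :
    w X + w Y = w ⊥ + w (X ⊔ Y) := by
  by_cases hX0 : X = ⊥
  · rw [hX0, bot_sup_eq]
  by_cases hY0 : Y = ⊥
  · rw [hY0, sup_bot_eq, add_comm]
  have h2 : ¬ X ≤ Y := by
    intro h
    apply hX0
    rw [eq_bot_iff, ← h0]
    exact le_inf hX (h.trans hY)
  have h3 : ¬ Y ≤ X := by
    intro h
    apply hY0
    rw [eq_bot_iff, ← h0]
    exact le_inf (h.trans hX) hY
  obtain ⟨J, Q, h4, h5, h6⟩ := compat hw h2 h3
  have h7 : J = ⊥ := by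
    rw [eq_bot_iff, ← h0]
    exact h4.trans (inf_le_inf hX hY)
  rw [h7] at h6
  have h8 : Q ⊓ T ≤ X := claimB1 hw h0 h1 hX hY hX0 h5 h6
  have h9 : Q ⊓ T' ≤ Y := claimB1 hw (by rw [inf_comm, h0]) (by rw [sup_comm, h1]) hY hX hY0
    (by rw [sup_comm]; exact h5) (by rw [add_comm, h6])
  have h10 : Q = X ⊔ Y := by
    apply le_antisymm _ h5
    calc Q = Q ⊓ (T ⊔ T') := by rw [h1, inf_top_eq]
      _ = (Q ⊓ T) ⊔ (Q ⊓ T') := inf_sup_left _ _ _
      _ ≤ X ⊔ Y := sup_le_sup h8 h9
  rw [h6, h10]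

end clopen

/-- Comparability is transitive: `P` is a disjoint union of chains. -/
def IsUnionOfChains (P : Type*) [PartialOrder P] : Prop :=
  ∀ a b c : P, (a ≤ b ∨ b ≤ a) → (b ≤ c ∨ c ≤ b) → (a ≤ c ∨ c ≤ a)

theorem nested (hP : IsUnionOfChains P) (I I' : LowerSet P) (p : P) :
    (∀ q, (q ≤ p ∨ p ≤ q) → q ∈ I → q ∈ I') ∨ (∀ q, (q ≤ p ∨ p ≤ q) → q ∈ I' → q ∈ I) := by
  by_contra hcon
  push Not at hcon
  obtain ⟨⟨q, hq, hqI, hqI'⟩, ⟨r, hr, hrI', hrI⟩⟩ := hcon
  rcases hP q p r hq (by tauto) with h | h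
  · exact hqI' (I'.lower h hrI')
  · exact hrI (I.lower h hqI)

theorem main [Finite P] (hP : IsUnionOfChains P) {w : LowerSet P → (σ →₀ ℕ)} {K : Type*} [Field K]
    (hw : IsCompatibleASL K w) (I I' : LowerSet P) :
    w I + w I' = w (I ⊓ I') + w (I ⊔ I') := by
  classical
  let C : Set P := {p | ∀ q, (q ≤ p ∨ p ≤ q) → q ∈ I → q ∈ I'}
  have hC : ∀ a b : P, (a ≤ b ∨ b ≤ a) → a ∈ C → b ∈ C := by
    intro a b hab ha q hq
    exact ha q (hP q b a hq (by tauto))
  let T : LowerSet P := ⟨C, fun a b hba ha => hC a b (Or.inr hba) ha⟩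
  let T' : LowerSet P := ⟨Cᶜ, fun a b hba ha hb => ha (hC b a (Or.inl hba) hb)⟩
  have memT : ∀ p, p ∈ T ↔ p ∈ C := fun p => Iff.rfl
  have memT' : ∀ p, p ∈ T' ↔ p ∉ C := fun p => Iff.rfl
  have h0 : T ⊓ T' = ⊥ := by
    rw [eq_bot_iff]
    intro p hp
    exact absurd ((memT p).1 (LowerSet.mem_inf_iff.1 hp).1) ((memT' p).1 (LowerSet.mem_inf_iff.1 hp).2)
  have h1 : T ⊔ T' = ⊤ := by
    rw [eq_top_iff]
    intro p _
    rw [SetLike.mem_coe, LowerSet.mem_sup_iff, memT, memT']
    exact em _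
  have hsplit : ∀ A : LowerSet P, (A ⊓ T) ⊔ (A ⊓ T') = A := by
    intro A
    rw [← inf_sup_left, h1, inf_top_eq]
  have hIT : I ⊓ T ≤ I' ⊓ T := by
    intro p hp
    rw [SetLike.mem_coe, LowerSet.mem_inf_iff] at hp ⊢
    exact ⟨(memT p).1 hp.2 p (Or.inl le_rfl) hp.1, hp.2⟩
  have hIT' : I' ⊓ T' ≤ I ⊓ T' := by
    intro p hp
    rw [SetLike.mem_coe, LowerSet.mem_inf_iff] at hp ⊢
    refine ⟨?_, hp.2⟩
    rcases nested hP I I' p with h | h
    · exact absurd h ((memT' p).1 hp.2)
    · exact h p (Or.inl le_rfl) hp.1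
  have e1 := claimB hw h0 h1 (X := I ⊓ T) (Y := I ⊓ T') inf_le_right inf_le_right
  have e2 := claimB hw h0 h1 (X := I' ⊓ T) (Y := I' ⊓ T') inf_le_right inf_le_right
  have e3 := claimB hw h0 h1 (X := I ⊓ T) (Y := I' ⊓ T') inf_le_right inf_le_right
  have e4 := claimB hw h0 h1 (X := I' ⊓ T) (Y := I ⊓ T') inf_le_right inf_le_right
  rw [hsplit] at e1 e2
  have f1 : (I ⊓ T) ⊔ (I' ⊓ T') = I ⊓ I' := by
    rw [← hsplit (I ⊓ I')]
    congr 1
    · apply le_antisymm
      · exact le_inf (le_inf inf_le_left (hIT.trans inf_le_left)) inf_le_right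
      · exact inf_le_inf_right _ inf_le_left
    · apply le_antisymm
      · exact le_inf (le_inf (hIT'.trans inf_le_left) inf_le_left) inf_le_right
      · exact inf_le_inf_right _ inf_le_right
  have f2 : (I' ⊓ T) ⊔ (I ⊓ T') = I ⊔ I' := by
    rw [← hsplit (I ⊔ I')]
    congr 1
    · apply le_antisymm
      · exact inf_le_inf_right _ le_sup_right
      · rw [inf_sup_right]
        exact sup_le hIT le_rfl
    · apply le_antisymm
      · exact inf_le_inf_right _ le_sup_left
      · rw [inf_sup_right]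
        exact sup_le le_rfl hIT'
  rw [f1] at e3
  rw [f2] at e4
  ext s
  have g1 := DFunLike.congr_fun e1 s
  have g2 := DFunLike.congr_fun e2 s
  have g3 := DFunLike.congr_fun e3 s
  have g4 := DFunLike.congr_fun e4 s
  simp only [Finsupp.coe_add, Pi.add_apply] at g1 g2 g3 g4 ⊢
  omega

/-! ### The three standard rings -/

section std

variable [Fintype P]

open Classical in
theorem xset_apply (W : Set P) (p : P) : xset W p = if p ∈ W then 1 else 0 := by
  rw [xset, Finsupp.coe_finsetSum, Finset.sum_apply]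
  simp only [Finsupp.single_apply]
  rw [Finset.sum_ite_eq']
  simp

theorem exists_max {I : LowerSet P} {p : P} (hp : p ∈ I) :
    ∃ q, p ≤ q ∧ Maximal (fun q => q ∈ I) q := by
  obtain ⟨q, hpq, hq⟩ := (Set.toFinite {q | q ∈ I}).exists_le_maximal hp
  exact ⟨q, hpq, hq⟩

theorem exists_min {I : LowerSet P} {p : P} (hp : p ∉ I) :
    ∃ q, q ≤ p ∧ Minimal (fun q => q ∉ I) q := by
  obtain ⟨q, hpq, hq⟩ := (Set.toFinite {q | q ∉ I}).exists_le_minimal hp
  exact ⟨q, hpq, hq⟩

open Classical in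
theorem order_uniq {J J' M N : LowerSet P} (h1 : J ≤ J') (h2 : M ≤ N)
    (h : orderW J + orderW J' = orderW M + orderW N) : J = M ∧ J' = N := by
  have key : ∀ p, (p ∈ J ↔ p ∈ M) ∧ (p ∈ J' ↔ p ∈ N) := by
    intro p
    have h3 := DFunLike.congr_fun h p
    simp only [Finsupp.coe_add, Pi.add_apply, orderW, xset_apply, Set.mem_ofPred_eq] at h3
    have h4 : p ∈ J → p ∈ J' := fun h => h1 h
    have h5 : p ∈ M → p ∈ N := fun h => h2 h
    by_cases a1 : p ∈ J <;> by_cases a2 : p ∈ J' <;> by_cases a3 : p ∈ M <;>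
      by_cases a4 : p ∈ N <;> simp_all
  exact ⟨SetLike.ext fun p => (key p).1, SetLike.ext fun p => (key p).2⟩

open Classical in
theorem chain_inj {J M : LowerSet P} (h : chainW J = chainW M) : J ≤ M := by
  intro p hp
  obtain ⟨q, hpq, hq⟩ := exists_max hp
  have h3 := DFunLike.congr_fun h q
  simp only [chainW, xset_apply, Set.mem_ofPred_eq, if_pos hq] at h3
  have h4 : Maximal (fun q => q ∈ M) q := by
    by_contra hn
    rw [if_neg hn] at h3
    exact absurd h3 one_ne_zero
  exact M.lower hpq h4.1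

open Classical in
theorem chain_le {J J' M N : LowerSet P} (h2 : M ≤ N)
    (h : chainW J + chainW J' = chainW M + chainW N) : J' ≤ N := by
  intro p hp
  obtain ⟨q, hpq, hq⟩ := exists_max hp
  have h3 := DFunLike.congr_fun h q
  simp only [Finsupp.coe_add, Pi.add_apply, chainW, xset_apply, Set.mem_ofPred_eq, if_pos hq] at h3
  have h4 : Maximal (fun q => q ∈ M) q ∨ Maximal (fun q => q ∈ N) q := by
    by_contra hn
    push Not at hn
    rw [if_neg hn.1, if_neg hn.2] at h3
    omega
  rcases h4 with h4 | h4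
  · exact h2 (M.lower hpq h4.1)
  · exact N.lower hpq h4.1

theorem chain_uniq {J J' M N : LowerSet P} (h1 : J ≤ J') (h2 : M ≤ N)
    (h : chainW J + chainW J' = chainW M + chainW N) : J = M ∧ J' = N := by
  have h3 : J' = N := le_antisymm (chain_le h2 h) (chain_le h1 h.symm)
  refine ⟨?_, h3⟩
  rw [h3] at h
  have h4 := add_right_cancel h
  exact le_antisymm (chain_inj h4) (chain_inj h4.symm)

open Classical in
theorem dual_inj {J M : LowerSet P} (h : dualChainW J = dualChainW M) : J ≤ M := by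
  intro p hp
  by_contra hpM
  obtain ⟨q, hqp, hq⟩ := exists_min hpM
  have h3 := DFunLike.congr_fun h q
  simp only [dualChainW, xset_apply, Set.mem_ofPred_eq, if_pos hq] at h3
  have h4 : Minimal (fun q => q ∉ J) q := by
    by_contra hn
    rw [if_neg hn] at h3
    exact absurd h3 zero_ne_one
  exact h4.1 (J.lower hqp hp)

open Classical in
theorem dual_le {J J' M N : LowerSet P} (h2 : J ≤ J')
    (h : dualChainW J + dualChainW J' = dualChainW M + dualChainW N) : J ≤ M := by
  intro p hp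
  by_contra hpM
  obtain ⟨q, hqp, hq⟩ := exists_min hpM
  have h3 := DFunLike.congr_fun h q
  simp only [Finsupp.coe_add, Pi.add_apply, dualChainW, xset_apply, Set.mem_ofPred_eq,
    if_pos hq] at h3
  have h4 : Minimal (fun q => q ∉ J) q ∨ Minimal (fun q => q ∉ J') q := by
    by_contra hn
    push Not at hn
    rw [if_neg hn.1, if_neg hn.2] at h3
    omega
  rcases h4 with h4 | h4
  · exact h4.1 (J.lower hqp hp)
  · exact h4.1 (h2 (J.lower hqp hp))

theorem dual_uniq {J J' M N : LowerSet P} (h1 : J ≤ J') (h2 : M ≤ N)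
    (h : dualChainW J + dualChainW J' = dualChainW M + dualChainW N) : J = M ∧ J' = N := by
  have h3 : J = M := le_antisymm (dual_le h1 h) (dual_le h2 h.symm)
  refine ⟨h3, ?_⟩
  rw [h3] at h
  have h4 := add_left_cancel h
  exact le_antisymm (dual_inj h4) (dual_inj h4.symm)

open Classical in
theorem order_rel (I I' : LowerSet P) :
    orderW I + orderW I' = orderW (I ⊓ I') + orderW (I ⊔ I') := by
  ext p
  simp only [Finsupp.coe_add, Pi.add_apply, orderW, xset_apply, Set.mem_ofPred_eq,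
    LowerSet.mem_inf_iff, LowerSet.mem_sup_iff]
  by_cases a1 : p ∈ I <;> by_cases a2 : p ∈ I' <;> simp [a1, a2]

theorem max_of_agree {I J : LowerSet P} {p : P}
    (h : ∀ q, (q ≤ p ∨ p ≤ q) → (q ∈ I ↔ q ∈ J)) :
    Maximal (fun q => q ∈ I) p ↔ Maximal (fun q => q ∈ J) p := by
  constructor
  · rintro ⟨h1, h2⟩
    exact ⟨(h p (Or.inl le_rfl)).1 h1, fun q hq hpq => h2 ((h q (Or.inr hpq)).2 hq) hpq⟩
  · rintro ⟨h1, h2⟩
    exact ⟨(h p (Or.inl le_rfl)).2 h1, fun q hq hpq => h2 ((h q (Or.inr hpq)).1 hq) hpq⟩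

theorem min_of_agree {I J : LowerSet P} {p : P}
    (h : ∀ q, (q ≤ p ∨ p ≤ q) → (q ∈ I ↔ q ∈ J)) :
    Minimal (fun q => q ∉ I) p ↔ Minimal (fun q => q ∉ J) p := by
  constructor
  · rintro ⟨h1, h2⟩
    exact ⟨fun h3 => h1 ((h p (Or.inl le_rfl)).2 h3),
      fun q hq hpq => h2 (fun h4 => hq ((h q (Or.inl hpq)).1 h4)) hpq⟩
  · rintro ⟨h1, h2⟩
    exact ⟨fun h3 => h1 ((h p (Or.inl le_rfl)).1 h3),
      fun q hq hpq => h2 (fun h4 => hq ((h q (Or.inl hpq)).2 h4)) hpq⟩

theorem agree (hP : IsUnionOfChains P) (I I' : LowerSet P) (p : P) :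
    ((∀ q, (q ≤ p ∨ p ≤ q) → (q ∈ I ⊓ I' ↔ q ∈ I)) ∧
      (∀ q, (q ≤ p ∨ p ≤ q) → (q ∈ I ⊔ I' ↔ q ∈ I'))) ∨
    ((∀ q, (q ≤ p ∨ p ≤ q) → (q ∈ I ⊓ I' ↔ q ∈ I')) ∧
      (∀ q, (q ≤ p ∨ p ≤ q) → (q ∈ I ⊔ I' ↔ q ∈ I))) := by
  rcases nested hP I I' p with h | h
  · left
    constructor
    · intro q hq
      rw [LowerSet.mem_inf_iff]
      exact ⟨fun h2 => h2.1, fun h2 => ⟨h2, h q hq h2⟩⟩
    · intro q hq
      rw [LowerSet.mem_sup_iff]
      exact ⟨fun h2 => h2.elim (h q hq) id, fun h2 => Or.inr h2⟩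
  · right
    constructor
    · intro q hq
      rw [LowerSet.mem_inf_iff]
      exact ⟨fun h2 => h2.2, fun h2 => ⟨h q hq h2, h2⟩⟩
    · intro q hq
      rw [LowerSet.mem_sup_iff]
      exact ⟨fun h2 => h2.elim id (h q hq), fun h2 => Or.inl h2⟩

open Classical in
theorem chain_rel (hP : IsUnionOfChains P) (I I' : LowerSet P) :
    chainW I + chainW I' = chainW (I ⊓ I') + chainW (I ⊔ I') := by
  ext p
  simp only [Finsupp.coe_add, Pi.add_apply, chainW, xset_apply, Set.mem_ofPred_eq]
  rcases agree hP I I' p with ⟨h1, h2⟩ | ⟨h1, h2⟩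
  · rw [if_congr (max_of_agree h1) rfl rfl, if_congr (max_of_agree h2) rfl rfl]
  · rw [if_congr (max_of_agree h1) rfl rfl, if_congr (max_of_agree h2) rfl rfl, add_comm]

open Classical in
theorem dual_rel (hP : IsUnionOfChains P) (I I' : LowerSet P) :
    dualChainW I + dualChainW I' = dualChainW (I ⊓ I') + dualChainW (I ⊔ I') := by
  ext p
  simp only [Finsupp.coe_add, Pi.add_apply, dualChainW, xset_apply, Set.mem_ofPred_eq]
  rcases agree hP I I' p with ⟨h1, h2⟩ | ⟨h1, h2⟩
  · rw [if_congr (min_of_agree h1) rfl rfl, if_congr (min_of_agree h2) rfl rfl]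
  · rw [if_congr (min_of_agree h1) rfl rfl, if_congr (min_of_agree h2) rfl rfl, add_comm]

end std

theorem asl_uniq {K : Type*} [Field K] {w : LowerSet P → (σ →₀ ℕ)} (hw : IsCompatibleASL K w)
    {J J' M N : LowerSet P} (h1 : J ≤ J') (h2 : M ≤ N) (h : w J + w J' = w M + w N) :
    J = M ∧ J' = N := by
  classical
  have heq := uniq hw (pair_chain h1) (pair_chain h2) rfl (by
    simp only [Multiset.insert_eq_cons, Multiset.map_cons, Multiset.map_singleton,
      Multiset.sum_cons, Multiset.sum_singleton]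
    exact h)
  simp only [Multiset.insert_eq_cons, Multiset.cons_eq_cons, Multiset.singleton_inj] at heq
  rcases heq with ⟨h3, h4⟩ | ⟨h3, s, h4, h5⟩
  · exact ⟨h3, h4⟩
  · have h6 : s = 0 := by
      have := congrArg Multiset.card h4
      simp at this
      exact this
    subst h6
    simp only [Multiset.cons_zero, Multiset.singleton_inj] at h4 h5
    subst h4 h5
    have := le_antisymm h1 h2
    exact absurd this h3

/-- **The result.** Let `P` be a finite disjoint union of chains. For every compatible monomial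
algebra with straightening laws on `J(P)`, given by monomials `w_I`, the straightening relations are
`φ(I) φ(I') = φ(I ∩ I') φ(I ∪ I')`; they coincide with those of the toric ring of the order polytope
of `P`, of the chain polytope of `P`, and of the chain polytope of the dual poset. -/
theorem result (K : Type*) [Field K] (P : Type*) [PartialOrder P] [Fintype P]
    (hP : IsUnionOfChains P) (σ : Type*) (w : LowerSet P → (σ →₀ ℕ))
    (hw : IsCompatibleASL K w) :
    (∀ I I' : LowerSet P, phi K w I * phi K w I' = phi K w (I ⊓ I') * phi K w (I ⊔ I')) ∧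
    SameRelations K w (orderW (P := P)) ∧ SameRelations K w (chainW (P := P)) ∧
      SameRelations K w (dualChainW (P := P)) := by
  have hm := main hP hw
  refine ⟨fun I I' => (rel_iff w _ _ _ _).2 (hm I I'), ?_, ?_, ?_⟩
  · intro I I' J J' _ _ hJ
    rw [rel_iff, rel_iff]
    constructor
    · intro h
      obtain ⟨rfl, rfl⟩ := asl_uniq hw hJ (inf_le_sup) (h.symm.trans (hm I I'))
      exact order_rel I I'
    · intro h
      obtain ⟨rfl, rfl⟩ := order_uniq hJ (inf_le_sup) (h.symm.trans (order_rel I I'))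
      exact hm I I'
  · intro I I' J J' _ _ hJ
    rw [rel_iff, rel_iff]
    constructor
    · intro h
      obtain ⟨rfl, rfl⟩ := asl_uniq hw hJ (inf_le_sup) (h.symm.trans (hm I I'))
      exact chain_rel hP I I'
    · intro h
      obtain ⟨rfl, rfl⟩ := chain_uniq hJ (inf_le_sup) (h.symm.trans (chain_rel hP I I'))
      exact hm I I'
  · intro I I' J J' _ _ hJ
    rw [rel_iff, rel_iff]
    constructor
    · intro h
      obtain ⟨rfl, rfl⟩ := asl_uniq hw hJ (inf_le_sup) (h.symm.trans (hm I I'))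
      exact dual_rel hP I I'
    · intro h
      obtain ⟨rfl, rfl⟩ := dual_uniq hJ (inf_le_sup) (h.symm.trans (dual_rel hP I I'))
      exact hm I I'

end Pool.Agent.Results.MP_9c3df6_al.UniqueCompatible
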